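import Pool.Agent.H14.PD.Stmts

set_option autoImplicit false

namespace Pool.Agent.H14.PD

theorem pd_coc_two {V S : Type} (M : Mc V S) (x : V) (s t : S) (hc : M.cm s t)
    (hs : M.lab x s) (ht : M.lab x t) : -((M.m : ℤ) + 1) ≤ M.eta x s + M.eta x t := by
  have hm : (1 : ℤ) ≤ M.m := by exact_mod_cast M.m_pos
  by_cases b1 : M.big s
  · have b2 : ¬ M.big t := fun h => M.big_cm s t b1 h hc
    rcases M.eta_big x s hs b1 with e | e <;> rcases M.eta_small x t ht b2 with e' | e' <;> omega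
  · by_cases b2 : M.big t
    · rcases M.eta_small x s hs b1 with e | e <;> rcases M.eta_big x t ht b2 with e' | e' <;> omega
    · rcases M.eta_small x s hs b1 with e | e <;>
        rcases M.eta_small x t ht b2 with e' | e' <;> omega

theorem pd_coc_three {V S : Type} (M : Mc V S) (x : V) (r s t : S) (h1 : M.cm r s) (h2 : M.cm s t)
    (h3 : M.cm r t) (hr : M.lab x r) (hs : M.lab x s) (ht : M.lab x t) :
    -((M.m : ℤ) + 2) ≤ M.eta x r + M.eta x s + M.eta x t := by
  have hm : (1 : ℤ) ≤ M.m := by exact_mod_cast M.m_pos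
  by_cases b1 : M.big r
  · have b2 : ¬ M.big s := fun h => M.big_cm r s b1 h h1
    have b3 : ¬ M.big t := fun h => M.big_cm r t b1 h h3
    rcases M.eta_big x r hr b1 with e | e <;> rcases M.eta_small x s hs b2 with e' | e' <;>
      rcases M.eta_small x t ht b3 with e'' | e'' <;> omega
  · have h4 := pd_coc_two M x s t h2 hs ht
    rcases M.eta_small x r hr b1 with e | e <;> omega

theorem pd_coc : M_COC := by
  intro hQSW _ hTRI V S M a b G _ q hq hab y hy hLk
  obtain ⟨D, E, hA, ⟨d0, hd0⟩, ⟨e0, he0⟩, hDE, hDD, hEE⟩ := hLk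
  obtain ⟨Q1, -, -⟩ := hQSW (V × ℤ) S (M.slab a b) _ q hq
  have aE : ∀ e, E e → M.lab y.1 e ∧ M.eta y.1 e < 0 := fun e h => (hA e).2 (Or.inr h)
  have aD : ∀ d, D d → M.lab y.1 d ∧ M.eta y.1 d < 0 := fun d h => (hA d).2 (Or.inl h)
  have hED : ∀ d e, D d → E e → M.cm e d := fun d e h1 h2 => M.cm_symm _ _ (hDE d e h1 h2)
  -- `TRI` at `y`
  have T : ∀ r s t, M.cm r s → M.cm s t → M.cm r t → (M.lab y.1 r ∧ M.eta y.1 r < 0) →
      (M.lab y.1 s ∧ M.eta y.1 s < 0) → (M.lab y.1 t ∧ M.eta y.1 t < 0) →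
      q (Kp M y r s) * q (Kp M y s t) = q (Kp M y r t) := by
    intro r s t h1 h2 h3 hr hs ht
    refine hTRI V S M a b G q hq y r s t h1 h2 h3 hr.1 hs.1 ht.1 hr.2 hs.2 ht.2 (by omega) ?_
    have := pd_coc_three M y.1 r s t h1 h2 h3 hr.1 hs.1 ht.1
    omega
  -- inverses
  have Iv : ∀ s t, M.cm s t → (M.lab y.1 s ∧ M.eta y.1 s < 0) →
      (M.lab y.1 t ∧ M.eta y.1 t < 0) → q (Kp M y s t) * q (Kp M y t s) = 1 := by
    intro s t hc hs ht
    have h2 := pd_coc_two M y.1 s t hc hs.1 ht.1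
    obtain ⟨g1, g2⟩ := M.lf.sq y s t hc hs.1 ht.1
    obtain ⟨g3, g4⟩ := M.lf.sq y t s (M.cm_symm _ _ hc) ht.1 hs.1
    change M.lab (M.lact y s).1 t at g1
    change M.lact (M.lact y s) t = M.lact (M.lact y t) s at g2
    change M.lab (M.lact y t).1 s at g3
    have f1 : (M.lact y s).2 = y.2 + M.eta y.1 s := rfl
    have f2 : (M.lact y t).2 = y.2 + M.eta y.1 t := rfl
    have f3 : (M.lact (M.lact y s) t).2 = (M.lact y s).2 + M.eta (M.lact y s).1 t := rfl
    have f4 : M.eta (M.lact y s).1 t = M.eta y.1 t :=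
      M.eta_sq y.1 t s (M.cm_symm _ _ hc) ht.1 hs.1
    obtain ⟨i1, i2⟩ := M.lf.inv (M.lact y t) s g3
    change M.lab (M.lact (M.lact y t) s).1 s at i1
    change M.lact (M.lact (M.lact y t) s) s = M.lact y t at i2
    have j1 := Q1 (M.lact y s) t ⟨g1, ⟨by omega, by omega⟩, ⟨by omega, by omega⟩⟩
    change q (FreeGroup.of (M.lact y s, t)) * q (FreeGroup.of (M.lact (M.lact y s) t, t)) = 1 at j1
    have j2 := Q1 (M.lact (M.lact y t) s) s ⟨i1, by rw [← g2]; exact ⟨by omega, by omega⟩,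
      by rw [i2]; exact ⟨by omega, by omega⟩⟩
    change q (FreeGroup.of (M.lact (M.lact y t) s, s)) *
      q (FreeGroup.of (M.lact (M.lact (M.lact y t) s) s, s)) = 1 at j2
    rw [i2] at j2
    have k1 : q (Kp M y s t) =
        q (FreeGroup.of (M.lact y s, t)) * q (FreeGroup.of (M.lact (M.lact y t) s, s)) := by
      simp only [Kp, wd, mul_one, map_mul, g2]
    have k2 : q (Kp M y t s) =
        q (FreeGroup.of (M.lact y t, s)) * q (FreeGroup.of (M.lact (M.lact y s) t, t)) := by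
      simp only [Kp, wd, mul_one, map_mul, g2]
    rw [k1, k2]
    calc _ = q (FreeGroup.of (M.lact y s, t)) * (q (FreeGroup.of (M.lact (M.lact y t) s, s)) *
          q (FreeGroup.of (M.lact y t, s))) * q (FreeGroup.of (M.lact (M.lact y s) t, t)) := by
          group
      _ = 1 := by rw [j2, mul_one, j1]
  -- the value does not depend on `e`
  have I0 : ∀ d, D d → ∀ e e', E e → E e' → M.cm e e' →
      q (Kp M y d e) * q (Kp M y e d0) = q (Kp M y d e') * q (Kp M y e' d0) := by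
    intro d hd e e' he he' hc
    rw [← T e e' d0 hc (hED _ _ hd0 he') (hED _ _ hd0 he) (aE e he) (aE e' he') (aD d0 hd0),
      ← mul_assoc, T d e e' (hDE _ _ hd he) hc (hDE _ _ hd he') (aD d hd) (aE e he) (aE e' he')]
  have I1 : ∀ d, D d → ∀ e e', E e → E e' →
      q (Kp M y d e) * q (Kp M y e d0) = q (Kp M y d e') * q (Kp M y e' d0) := by
    intro d hd e e' he he'
    have h := hEE e e' he he'
    induction h with
    | refl => rfl
    | tail _ hs ih => rw [ih hs.1]; exact I0 d hd _ _ hs.1 hs.2.1 hs.2.2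
  classical
  refine ⟨fun s => if E s then q (Kp M y s d0) else q (Kp M y s e0) * q (Kp M y e0 d0), ?_⟩
  intro s t hc hs1 hs2 ht1 ht2
  have hs := (hA s).1 ⟨hs1, hs2⟩
  have ht := (hA t).1 ⟨ht1, ht2⟩
  by_cases cs : E s
  · by_cases ct : E t
    · simp only [cs, ct, if_true]
      exact (T s t d0 hc (hED _ _ hd0 ct) (hED _ _ hd0 cs) (aE s cs) (aE t ct) (aD d0 hd0)).symm
    · have dt : D t := ht.resolve_right ct
      simp only [cs, ct, if_true, if_false]
      rw [I1 t dt e0 s he0 cs, ← mul_assoc, Iv s t hc ⟨hs1, hs2⟩ ⟨ht1, ht2⟩, one_mul]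
  · have ds : D s := hs.resolve_right cs
    by_cases ct : E t
    · simp only [cs, ct, if_true, if_false]
      exact I1 s ds e0 t he0 ct
    · exact absurd hc (hDD s t ds (ht.resolve_right ct))

end Pool.Agent.H14.PD
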