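import Pool.Agent.H14.PD.Stmts

set_option autoImplicit false

namespace Pool.Agent.H14.PD

theorem pd_rai_slcons {V S : Type} (M : Mc V S) (a b : ℤ) (y : V × ℤ) (s : S) (w : List S) :
    M.Sl a b y (s :: w) ↔ (a ≤ y.2 ∧ y.2 ≤ b) ∧ M.lab y.1 s ∧ M.Sl a b (M.lact y s) w := by
  constructor
  · rintro ⟨h1, h2, h3⟩
    exact ⟨h1, h2.1, h2.2.2, h3⟩
  · rintro ⟨h1, h2, h3, h4⟩
    exact ⟨h1, ⟨h2, h1, h3⟩, h4⟩

theorem pd_rai_slnil {V S : Type} (M : Mc V S) (a b : ℤ) (y : V × ℤ) :
    M.Sl a b y [] ↔ (a ≤ y.2 ∧ y.2 ≤ b) :=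
  ⟨fun h => h.1, fun h => ⟨h, trivial⟩⟩

theorem pd_rai_slapp {V S : Type} (M : Mc V S) (a b : ℤ) (v : List S) :
    ∀ (u : List S) (y : V × ℤ), M.Sl a b y u → M.Sl a b (en M.lact y u) v → M.Sl a b y (u ++ v)
  | [], y, _, h2 => h2
  | s :: u, y, h1, h2 => by
    rw [pd_rai_slcons] at h1
    show M.Sl a b y (s :: (u ++ v))
    rw [pd_rai_slcons]
    exact ⟨h1.1, h1.2.1, pd_rai_slapp M a b v u _ h1.2.2 h2⟩

theorem pd_rai_enapp {Y S : Type} (act : Y → S → Y) (v : List S) :
    ∀ (u : List S) (y : Y), en act y (u ++ v) = en act (en act y u) v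
  | [], _ => rfl
  | _ :: u, _ => pd_rai_enapp act v u _

theorem pd_rai_back {V S : Type} (M : Mc V S) (y : V × ℤ) (s : S) (h : M.lab y.1 s) :
    M.lab (M.lact y s).1 s ∧ M.lact (M.lact y s) s = y ∧
      M.eta (M.lact y s).1 s = - M.eta y.1 s := by
  have h0 := M.lf.inv y s h
  exact ⟨h0.1, h0.2, M.eta_inv y.1 s h⟩

theorem pd_rai_sq {V S : Type} (M : Mc V S) (y : V × ℤ) (s t : S) (hc : M.cm s t)
    (hs : M.lab y.1 s) (ht : M.lab y.1 t) :
    M.lab (M.lact y s).1 t ∧ M.lact (M.lact y s) t = M.lact (M.lact y t) s ∧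
      M.eta (M.lact y s).1 t = M.eta y.1 t := by
  have h0 := M.lf.sq y s t hc hs ht
  exact ⟨h0.1, h0.2, M.eta_sq y.1 t s (M.cm_symm _ _ hc) ht hs⟩

theorem pd_rai_main (hPRB : PRB) (hNOT : NOT) {V S : Type} (M : Sd V S) (b : Bool) (h B : ℤ)
    (hB : h + 2 * M.m ≤ B) (w : List S) :
    (∀ v : V × ℤ, M.Sl h B v w → h + M.m ≤ v.2 → h + M.m ≤ (en M.lact v w).2 → M.cp b v.1 →
      (∀ s ∈ w, M.big s → M.side s = b) →
      ∃ w' : List S, M.Sl (h + M.m) B v w' ∧ pr M.cm w' = pr M.cm w ∧
        w'.length ≤ (2 * M.m + 6) * w.length ∧ ∀ s ∈ w', M.big s → M.side s = b) ∧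
    (∀ (v : V × ℤ) (a : S), M.Sl h B v w → v.2 < h + M.m → h + M.m ≤ (en M.lact v w).2 →
      M.cp b v.1 → (∀ s ∈ w, M.big s → M.side s = b) → M.big a → M.side a = b →
      M.lab v.1 a → 0 < M.eta v.1 a →
      ∃ w' : List S, M.Sl (h + M.m) B (M.lact v a) w' ∧ pr M.cm w' = io M.cm a * pr M.cm w ∧
        w'.length ≤ (2 * M.m + 6) * w.length ∧ ∀ s ∈ w', M.big s → M.side s = b) := by
  obtain ⟨p1, p2, p3, p4, p5, -⟩ := hPRB S M.cm
  have hm : (1 : ℤ) ≤ M.m := by exact_mod_cast M.m_pos
  have hcomm : ∀ a s : S, M.cm s a → ∀ g : Wg M.cm,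
      io M.cm a * (io M.cm s * (io M.cm a * g)) = io M.cm s * g := by
    intro a s hc g
    have e := p5 s a hc
    calc io M.cm a * (io M.cm s * (io M.cm a * g))
        = io M.cm a * ((io M.cm s * io M.cm a) * g) := by simp only [mul_assoc]
      _ = io M.cm a * ((io M.cm a * io M.cm s) * g) := by rw [e]
      _ = (io M.cm a * io M.cm a) * (io M.cm s * g) := by simp only [mul_assoc]
      _ = io M.cm s * g := by rw [p4, one_mul]
  induction w with
  | nil =>
    refine ⟨?_, ?_⟩
    · intro v h1 h2 h3 h4 h5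
      refine ⟨[], ?_, rfl, by simp, by simp⟩
      rw [pd_rai_slnil] at h1 ⊢
      exact ⟨h2, h1.2⟩
    · intro v a h1 h2 h3
      exfalso
      have h3' : h + M.m ≤ v.2 := h3
      omega
  | cons s w ih =>
    obtain ⟨ihA, ihB⟩ := ih
    have key : ∀ L K : ℕ, L ≤ 2 * M.m + 6 → K ≤ (2 * M.m + 6) * w.length →
        L + K ≤ (2 * M.m + 6) * (w.length + 1) := by
      intro L K h1 h2
      calc L + K ≤ (2 * M.m + 6) + (2 * M.m + 6) * w.length := by omega
        _ = (2 * M.m + 6) * (w.length + 1) := by ring
    refine ⟨?_, ?_⟩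
    · intro v h1 h2 h3 h4 h5
      rw [pd_rai_slcons] at h1
      obtain ⟨h1a, h1b, h1c⟩ := h1
      have h3' : h + M.m ≤ (en M.lact (M.lact v s) w).2 := h3
      have h5' : ∀ t ∈ w, M.big t → M.side t = b := fun t ht => h5 t (List.mem_cons_of_mem _ ht)
      have hvs : (M.lact v s).2 = v.2 + M.eta v.1 s := rfl
      by_cases hh : h + M.m ≤ (M.lact v s).2
      · have hcp : M.cp b (M.lact v s).1 := by
          by_cases hb : M.big s
          · exact M.cp_big b v.1 s h4 h1b hb (h5 s List.mem_cons_self hb)
          · exact M.cp_small b v.1 s h4 h1b hb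
        obtain ⟨w', k1, k2, k3, k4⟩ := ihA (M.lact v s) h1c hh h3' hcp h5'
        refine ⟨s :: w', ?_, ?_, ?_, ?_⟩
        · rw [pd_rai_slcons]
          exact ⟨⟨h2, h1a.2⟩, h1b, k1⟩
        · rw [p2, p2, k2]
        · have := key 1 w'.length (by omega) k3
          simp only [List.length_cons]
          omega
        · intro t ht hb
          rcases List.mem_cons.1 ht with rfl | ht
          · exact h5 _ List.mem_cons_self hb
          · exact k4 t ht hb
      · push Not at hh
        obtain ⟨b1, b2, b3⟩ := pd_rai_back M.toMc v s h1b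
        by_cases hb : M.big s
        · have hcp : M.cp b (M.lact v s).1 :=
            M.cp_big b v.1 s h4 h1b hb (h5 s List.mem_cons_self hb)
          have hpos : 0 < M.eta (M.lact v s).1 s := by
            rw [b3]; omega
          obtain ⟨w', k1, k2, k3, k4⟩ := ihB (M.lact v s) s h1c hh h3' hcp h5' hb
            (h5 s List.mem_cons_self hb) b1 hpos
          rw [b2] at k1
          refine ⟨w', k1, ?_, ?_, k4⟩
          · rw [k2, p2]
          · have := key 0 w'.length (by omega) k3
            simp only [List.length_cons]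
            omega
        · have hcp : M.cp b (M.lact v s).1 := M.cp_small b v.1 s h4 h1b hb
          have he : M.eta v.1 s = -1 := by
            rcases M.eta_small v.1 s h1b hb with e | e
            · omega
            · exact e
          have hpos : 0 < M.eta (M.lact v s).1 s := by
            rw [b3, he]; norm_num
          obtain ⟨a, a1, a2, a3, a4, a5⟩ := M.R1 b (M.lact v s).1 s hcp b1 hb hpos
          obtain ⟨w', k1, k2, k3, k4⟩ := ihB (M.lact v s) a h1c hh h3' hcp h5' a1 a2 a3 a4
          obtain ⟨q1, q2, q3⟩ := pd_rai_sq M.toMc (M.lact v s) s a a5 b1 a3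
          rw [b2] at q1 q2 q3
          -- `lact v a = lact (lact (lact v s) a) s`
          obtain ⟨r1, r2, -⟩ := pd_rai_sq M.toMc (M.lact v s) a s (M.cm_symm _ _ a5) a3 b1
          obtain ⟨c1, c2, -⟩ := pd_rai_back M.toMc (M.lact (M.lact v s) a) s r1
          rw [← q2] at c1 c2
          have hea : M.eta v.1 a = M.m := by
            rcases M.eta_big v.1 a q1 a1 with e | e
            · exact e
            · rw [← q3] at a4; omega
          have hva : (M.lact v a).2 = v.2 + M.m := by
            show v.2 + M.eta v.1 a = _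
            rw [hea]
          have hv2 : v.2 = h + M.m := by omega
          refine ⟨a :: s :: w', ?_, ?_, ?_, ?_⟩
          · rw [pd_rai_slcons, pd_rai_slcons, c2]
            refine ⟨⟨h2, h1a.2⟩, q1, ⟨by omega, by omega⟩, c1, k1⟩
          · rw [p2, p2, k2, p2]
            exact hcomm a s a5 _
          · have := key 2 w'.length (by omega) k3
            simp only [List.length_cons]
            omega
          · intro t ht hbt
            rcases List.mem_cons.1 ht with rfl | ht
            · exact a2
            · rcases List.mem_cons.1 ht with rfl | ht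
              · exact absurd hbt hb
              · exact k4 t ht hbt
    · intro v a h1 h2 h3 h4 h5 ha1 ha2 ha3 ha4
      rw [pd_rai_slcons] at h1
      obtain ⟨h1a, h1b, h1c⟩ := h1
      have h3' : h + M.m ≤ (en M.lact (M.lact v s) w).2 := h3
      have h5' : ∀ t ∈ w, M.big t → M.side t = b := fun t ht => h5 t (List.mem_cons_of_mem _ ht)
      have hvs : (M.lact v s).2 = v.2 + M.eta v.1 s := rfl
      have hvs2 : h ≤ (M.lact v s).2 := h1c.1.1
      -- the notch
      have hnot : ∀ a' : S, M.big a' → M.lab v.1 a' → 0 < M.eta v.1 a' →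
          ∃ N : List S, M.Sl (h + M.m) B (M.lact v a) N ∧
            en M.lact (M.lact v a) N = M.lact v a' ∧
            pr M.cm N = io M.cm a * io M.cm a' ∧ N.length ≤ 2 * M.m + 2 ∧
            ∀ s ∈ N, M.big s → s = a ∨ s = a' := by
        intro a' c1 c2 c3
        obtain ⟨n, hn⟩ : ∃ n : ℕ, (n : ℤ) = h + M.m - v.2 :=
          ⟨(h + M.m - v.2).toNat, Int.toNat_of_nonneg (by omega)⟩
        have hnm : n ≤ M.m := by omega
        obtain ⟨N, n1, n2, n3, n4, n5⟩ := hNOT V S M (h + M.m) B (by omega) n v a a' hnm (by omega)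
          ha1 c1 ha3 c2 ha4 c3
        exact ⟨N, n1, n2, n3, by omega, n5⟩
      by_cases hb : M.big s
      · have he : M.eta v.1 s = M.m := by
          rcases M.eta_big v.1 s h1b hb with e | e
          · exact e
          · exfalso; omega
        have hcp : M.cp b (M.lact v s).1 :=
          M.cp_big b v.1 s h4 h1b hb (h5 s List.mem_cons_self hb)
        have hh : h + M.m ≤ (M.lact v s).2 := by omega
        obtain ⟨w', k1, k2, k3, k4⟩ := ihA (M.lact v s) h1c hh h3' hcp h5'
        obtain ⟨N, n1, n2, n3, n4, n5⟩ := hnot s hb h1b (by omega)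
        refine ⟨N ++ w', ?_, ?_, ?_, ?_⟩
        · exact pd_rai_slapp M.toMc _ _ w' N _ n1 (by rw [n2]; exact k1)
        · rw [p3, n3, k2, p2, mul_assoc]
        · have := key N.length w'.length (by omega) k3
          simp only [List.length_cons, List.length_append]
          omega
        · intro t ht hbt
          rcases List.mem_append.1 ht with ht | ht
          · rcases n5 t ht hbt with rfl | rfl
            · exact ha2
            · exact h5 _ List.mem_cons_self hbt
          · exact k4 t ht hbt
      · have hcp : M.cp b (M.lact v s).1 := M.cp_small b v.1 s h4 h1b hb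
        obtain ⟨b1, b2, b3⟩ := pd_rai_back M.toMc v s h1b
        -- a big ascending label at `v` and at `v s`, on side `b`, commuting with `s`
        obtain ⟨a', c1, c2, c3, c4, c5, c6, c7⟩ : ∃ a', M.big a' ∧ M.side a' = b ∧
            M.lab v.1 a' ∧ 0 < M.eta v.1 a' ∧ M.lab (M.lact v s).1 a' ∧
            0 < M.eta (M.lact v s).1 a' ∧ M.cm s a' := by
          rcases M.eta_small v.1 s h1b hb with e | e
          · obtain ⟨a', a1, a2, a3, a4, a5⟩ := M.R1 b v.1 s h4 h1b hb (by omega)
            obtain ⟨q1, -, q3⟩ := pd_rai_sq M.toMc v s a' a5 h1b a3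
            exact ⟨a', a1, a2, a3, a4, q1, by rw [q3]; exact a4, a5⟩
          · obtain ⟨a', a1, a2, a3, a4, a5⟩ := M.R1 b (M.lact v s).1 s hcp b1 hb
              (by rw [b3]; omega)
            obtain ⟨q1, -, q3⟩ := pd_rai_sq M.toMc (M.lact v s) s a' a5 b1 a3
            rw [b2] at q1 q3
            exact ⟨a', a1, a2, q1, by rw [q3]; exact a4, a3, a4, a5⟩
        obtain ⟨q1, q2, -⟩ := pd_rai_sq M.toMc v a' s (M.cm_symm _ _ c7) c3 h1b
        have hea : M.eta v.1 a' = M.m := by
          rcases M.eta_big v.1 a' c3 c1 with e | e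
          · exact e
          · omega
        have hea2 : M.eta (M.lact v s).1 a' = M.m := by
          rcases M.eta_big (M.lact v s).1 a' c5 c1 with e | e
          · exact e
          · omega
        have hva : (M.lact v a').2 = v.2 + M.m := by
          show v.2 + M.eta v.1 a' = _
          rw [hea]
        have hvsa : (M.lact (M.lact v s) a').2 = (M.lact v s).2 + M.m := by
          show (M.lact v s).2 + M.eta (M.lact v s).1 a' = _
          rw [hea2]
        have he1 : M.eta v.1 s ≤ 1 := by
          rcases M.eta_small v.1 s h1b hb with e | e <;> omega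
        obtain ⟨N, n1, n2, n3, n4, n5⟩ := hnot a' c1 c3 c4
        by_cases hh : h + M.m ≤ (M.lact v s).2
        · obtain ⟨w', k1, k2, k3, k4⟩ := ihA (M.lact v s) h1c hh h3' hcp h5'
          obtain ⟨d1, d2, -⟩ := pd_rai_back M.toMc (M.lact v s) a' c5
          refine ⟨N ++ (s :: a' :: w'), ?_, ?_, ?_, ?_⟩
          · refine pd_rai_slapp M.toMc _ _ _ N _ n1 ?_
            rw [n2, pd_rai_slcons, pd_rai_slcons, q2, d2]
            exact ⟨⟨by omega, by omega⟩, q1, ⟨by omega, by omega⟩, d1, k1⟩
          · rw [p3, n3, p2, p2, k2, p2, mul_assoc, hcomm a' s c7]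
          · have := key (N.length + 2) w'.length (by omega) k3
            simp only [List.length_cons, List.length_append]
            omega
          · intro t ht hbt
            rcases List.mem_append.1 ht with ht | ht
            · rcases n5 t ht hbt with rfl | rfl
              · exact ha2
              · exact c2
            · rcases List.mem_cons.1 ht with rfl | ht
              · exact absurd hbt hb
              · rcases List.mem_cons.1 ht with rfl | ht
                · exact c2
                · exact k4 t ht hbt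
        · push Not at hh
          obtain ⟨w', k1, k2, k3, k4⟩ := ihB (M.lact v s) a' h1c hh h3' hcp h5' c1 c2 c5 c6
          refine ⟨N ++ (s :: w'), ?_, ?_, ?_, ?_⟩
          · refine pd_rai_slapp M.toMc _ _ _ N _ n1 ?_
            rw [n2, pd_rai_slcons, q2]
            exact ⟨⟨by omega, by omega⟩, q1, k1⟩
          · rw [p3, n3, p2, k2, p2, mul_assoc, hcomm a' s c7]
          · have := key (N.length + 1) w'.length (by omega) k3
            simp only [List.length_cons, List.length_append]
            omega
          · intro t ht hbt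
            rcases List.mem_append.1 ht with ht | ht
            · rcases n5 t ht hbt with rfl | rfl
              · exact ha2
              · exact c2
            · rcases List.mem_cons.1 ht with rfl | ht
              · exact absurd hbt hb
              · exact k4 t ht hbt

theorem pd_rai : M_RAI := by
  intro hPRB _ hNOT V S M b h B hB w y h1 h2 h3 h4 h5
  exact (pd_rai_main hPRB hNOT M b h B hB w).1 y h1 h2 h3 h4 h5

end Pool.Agent.H14.PD
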