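import Pool.Agent.H14.PD.Stmts

set_option autoImplicit false

namespace Pool.Agent.H14.PD

theorem pd_ret_back {V S : Type} (M : Mc V S) (y : V × ℤ) (s : S) (h : M.lab y.1 s) :
    M.lab (M.lact y s).1 s ∧ M.lact (M.lact y s) s = y ∧
      M.eta (M.lact y s).1 s = - M.eta y.1 s := by
  have h0 := M.lf.inv y s h
  exact ⟨h0.1, h0.2, M.eta_inv y.1 s h⟩

theorem pd_ret_nz {V S : Type} (M : Mc V S) (x : V) (s : S) (h : M.lab x s) : M.eta x s ≠ 0 := by
  have hm : (1 : ℤ) ≤ M.m := by exact_mod_cast M.m_pos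
  by_cases hb : M.big s
  · rcases M.eta_big x s h hb with e | e <;> omega
  · rcases M.eta_small x s h hb with e | e <;> omega

theorem pd_ret : M_RET := by
  intro hQSW _ hCOC V S M a b hdn hab
  have hq : ∀ r ∈ (M.slab a b).nrel,
      QuotientGroup.mk' (Subgroup.normalClosure (M.slab a b).nrel) r = 1 := by
    intro r hr
    exact (QuotientGroup.eq_one_iff r).2 (Subgroup.subset_normalClosure hr)
  generalize hqq : QuotientGroup.mk' (Subgroup.normalClosure (M.slab a b).nrel) = q at hq ⊢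
  have hc : ∀ y : V × ℤ, ∃ c : S → FreeGroup ((V × ℤ) × S) ⧸
      Subgroup.normalClosure (M.slab a b).nrel, y.2 = b + 1 → (∃ s, M.lab y.1 s) →
      ∀ s t, M.cm s t → M.lab y.1 s → M.eta y.1 s < 0 → M.lab y.1 t → M.eta y.1 t < 0 →
        c s = q (Kp M y s t) * c t := by
    intro y
    by_cases h1 : y.2 = b + 1 ∧ ∃ s, M.lab y.1 s
    · obtain ⟨c, hc⟩ := hCOC V S M a b _ q hq hab y h1.1 (hdn y.1 h1.2)
      exact ⟨c, fun _ _ => hc⟩
    · exact ⟨fun _ => 1, fun h2 h3 => absurd ⟨h2, h3⟩ h1⟩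
  choose c hc using hc
  classical
  obtain ⟨f, F1, F2, F3⟩ : ∃ f : (V × ℤ) × S → FreeGroup ((V × ℤ) × S) ⧸
      Subgroup.normalClosure (M.slab a b).nrel,
      (∀ z s, z.2 = b + 1 → f (z, s) = (c z s)⁻¹) ∧
      (∀ z s, z.2 ≠ b + 1 → (M.lact z s).2 = b + 1 → f (z, s) = c (M.lact z s) s) ∧
      (∀ z s, z.2 ≠ b + 1 → (M.lact z s).2 ≠ b + 1 → f (z, s) = q (FreeGroup.of (z, s))) := by
    refine ⟨fun p => if p.1.2 = b + 1 then (c p.1 p.2)⁻¹ else
      if (M.lact p.1 p.2).2 = b + 1 then c (M.lact p.1 p.2) p.2 else q (FreeGroup.of p),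
      ?_, ?_, ?_⟩
    · intro z s h; simp [h]
    · intro z s h h'; simp [h, h']
    · intro z s h h'; simp [h, h']
  obtain ⟨Q1, -, -⟩ := hQSW (V × ℤ) S (M.slab a b) _ q hq
  have Q1' : ∀ (z : V × ℤ) (s : S), M.lab z.1 s → (a ≤ z.2 ∧ z.2 ≤ b) →
      (a ≤ (M.lact z s).2 ∧ (M.lact z s).2 ≤ b) →
      q (FreeGroup.of (z, s)) * q (FreeGroup.of (M.lact z s, s)) = 1 :=
    fun z s h1 h2 h3 => Q1 z s ⟨h1, h2, h3⟩
  refine ⟨FreeGroup.lift f, ?_, ?_⟩
  · rintro r (⟨y, s, hl, rfl⟩ | ⟨y, s, t, hcm, hT, hE, rfl⟩)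
    · -- backtrack
      have hl' : M.lab y.1 s ∧ (a ≤ y.2 ∧ y.2 ≤ b + 1) ∧
        (a ≤ (M.lact y s).2 ∧ (M.lact y s).2 ≤ b + 1) := hl
      obtain ⟨l1, l2, l3⟩ := hl'
      obtain ⟨b1, b2, b3⟩ := pd_ret_back M y s l1
      have hnz := pd_ret_nz M y.1 s l1
      have hh : (M.lact y s).2 = y.2 + M.eta y.1 s := rfl
      have goal : f (y, s) * (f (M.lact y s, s) * 1) = 1 := by
        rw [mul_one]
        by_cases h1 : y.2 = b + 1
        · rw [F1 y s h1, F2 (M.lact y s) s (by omega) (by rw [b2]; exact h1), b2]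
          exact inv_mul_cancel _
        · by_cases h2 : (M.lact y s).2 = b + 1
          · rw [F2 y s h1 h2, F1 (M.lact y s) s h2]
            exact mul_inv_cancel _
          · rw [F3 y s h1 h2, F3 (M.lact y s) s h2 (by rw [b2]; exact h1)]
            exact Q1' y s l1 ⟨l2.1, by omega⟩ ⟨l3.1, by omega⟩
      have e : FreeGroup.lift f (wd (M.slab a (b + 1)).act y [s, s]) =
          f (y, s) * (f (M.lact y s, s) * 1) := by
        simp only [wd, map_mul, FreeGroup.lift_apply_of, map_one]
        rfl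
      rw [e, goal]
    · -- square
      have hT' : (M.lab y.1 s ∧ (a ≤ y.2 ∧ y.2 ≤ b + 1) ∧
          (a ≤ (M.lact y s).2 ∧ (M.lact y s).2 ≤ b + 1)) ∧
        (M.lab (M.lact y s).1 t ∧ (a ≤ (M.lact y s).2 ∧ (M.lact y s).2 ≤ b + 1) ∧
          (a ≤ (M.lact (M.lact y s) t).2 ∧ (M.lact (M.lact y s) t).2 ≤ b + 1)) ∧
        (M.lab (M.lact (M.lact y s) t).1 s ∧
          (a ≤ (M.lact (M.lact y s) t).2 ∧ (M.lact (M.lact y s) t).2 ≤ b + 1) ∧
          (a ≤ (M.lact (M.lact (M.lact y s) t) s).2 ∧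
            (M.lact (M.lact (M.lact y s) t) s).2 ≤ b + 1)) ∧
        (M.lab (M.lact (M.lact (M.lact y s) t) s).1 t ∧
          (a ≤ (M.lact (M.lact (M.lact y s) t) s).2 ∧
            (M.lact (M.lact (M.lact y s) t) s).2 ≤ b + 1) ∧
          (a ≤ (M.lact (M.lact (M.lact (M.lact y s) t) s) t).2 ∧
            (M.lact (M.lact (M.lact (M.lact y s) t) s) t).2 ≤ b + 1)) ∧ True := hT
      have hE' : M.lact (M.lact (M.lact (M.lact y s) t) s) t = y := hE
      obtain ⟨⟨l1, m1, m2⟩, ⟨l2, -, m3⟩, ⟨l3, -, m4⟩, ⟨l4, -, -⟩, -⟩ := hT'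
      have e : FreeGroup.lift f (wd (M.slab a (b + 1)).act y [s, t, s, t]) =
          f (y, s) * (f (M.lact y s, t) * (f (M.lact (M.lact y s) t, s) *
            (f (M.lact (M.lact (M.lact y s) t) s, t) * 1))) := by
        simp only [wd, map_mul, FreeGroup.lift_apply_of, map_one]
        rfl
      rw [e, mul_one]
      clear e hT hE
      obtain ⟨b1, c1, e1⟩ := pd_ret_back M y s l1
      obtain ⟨b2, c2, e2⟩ := pd_ret_back M (M.lact y s) t l2
      obtain ⟨b3, c3, e3⟩ := pd_ret_back M (M.lact (M.lact y s) t) s l3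
      obtain ⟨b4, c4, e4⟩ := pd_ret_back M (M.lact (M.lact (M.lact y s) t) s) t l4
      rw [hE'] at b4 c4 e4
      have h1 : (M.lact y s).2 = y.2 + M.eta y.1 s := rfl
      have h2 : (M.lact (M.lact y s) t).2 = (M.lact y s).2 + M.eta (M.lact y s).1 t := rfl
      have h3 : (M.lact (M.lact (M.lact y s) t) s).2 =
        (M.lact (M.lact y s) t).2 + M.eta (M.lact (M.lact y s) t).1 s := rfl
      have n1 := pd_ret_nz M y.1 s l1
      have n2 := pd_ret_nz M (M.lact y s).1 t l2
      have hts : M.cm t s := M.cm_symm _ _ hcm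
      -- parallel edges
      have p1 : M.eta (M.lact y s).1 t = M.eta y.1 t := M.eta_sq y.1 t s hts b4 l1
      have p2 : M.eta (M.lact (M.lact y s) t).1 s = M.eta (M.lact y s).1 s :=
        M.eta_sq (M.lact y s).1 s t hcm b1 l2
      generalize hy1 : M.lact y s = y1 at *
      generalize hy2 : M.lact y1 t = y2 at *
      generalize hy3 : M.lact y2 s = y3 at *
      by_cases k0 : y.2 = b + 1
      · -- corner `y`
        have d1 : M.eta y.1 s < 0 := by omega
        have d2 : M.eta y.1 t < 0 := by omega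
        have hcc := hc y k0 ⟨s, l1⟩ s t hcm l1 d1 b4 d2
        rw [F1 y s k0, F3 y1 t (by omega) (by rw [hy2]; omega),
          F3 y2 s (by omega) (by rw [hy3]; omega), F2 y3 t (by omega) (by rw [hE']; exact k0), hE']
        have hk : q (Kp M y s t) = q (FreeGroup.of (y1, t)) * q (FreeGroup.of (y2, s)) := by
          simp only [Kp, wd, hy1, hy2, mul_one, map_mul]
        rw [hk] at hcc
        rw [hcc]
        group
      · by_cases k1 : y1.2 = b + 1
        · have d1 : M.eta y1.1 s < 0 := by omega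
          have d2 : M.eta y1.1 t < 0 := by omega
          have hcc := hc y1 k1 ⟨s, b1⟩ s t hcm b1 d1 l2 d2
          rw [F2 y s k0 (by rw [hy1]; exact k1), hy1, F1 y1 t k1,
            F3 y2 s (by omega) (by rw [hy3]; omega), F3 y3 t (by omega) (by rw [hE']; exact k0)]
          have hk : q (Kp M y1 s t) = q (FreeGroup.of (y, t)) * q (FreeGroup.of (y3, s)) := by
            simp only [Kp, wd, c1, c4, mul_one, map_mul]
          rw [hk] at hcc
          have i1 := Q1' y t b4 ⟨m1.1, by omega⟩ (by rw [c4]; exact ⟨m4.1, by omega⟩)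
          rw [c4] at i1
          have i2 := Q1' y3 s b3 ⟨m4.1, by omega⟩ (by rw [c3]; exact ⟨m3.1, by omega⟩)
          rw [c3] at i2
          rw [hcc]
          calc q (FreeGroup.of (y, t)) * q (FreeGroup.of (y3, s)) * c y1 t * ((c y1 t)⁻¹ *
                (q (FreeGroup.of (y2, s)) * q (FreeGroup.of (y3, t))))
              = q (FreeGroup.of (y, t)) * (q (FreeGroup.of (y3, s)) * q (FreeGroup.of (y2, s))) *
                  q (FreeGroup.of (y3, t)) := by group
            _ = 1 := by rw [i2, mul_one, i1]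
        · by_cases k2 : y2.2 = b + 1
          · have d1 : M.eta y2.1 s < 0 := by omega
            have d2 : M.eta y2.1 t < 0 := by omega
            have hcc := hc y2 k2 ⟨s, l3⟩ t s hts b2 d2 l3 d1
            rw [F3 y s k0 (by rw [hy1]; exact k1), F2 y1 t k1 (by rw [hy2]; exact k2), hy2,
              F1 y2 s k2, F3 y3 t (by omega) (by rw [hE']; exact k0)]
            have hk : q (Kp M y2 t s) = q (FreeGroup.of (y1, s)) * q (FreeGroup.of (y, t)) := by
              simp only [Kp, wd, c1, c2, mul_one, map_mul]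
            rw [hk] at hcc
            have i1 := Q1' y t b4 ⟨m1.1, by omega⟩ (by rw [c4]; exact ⟨m4.1, by omega⟩)
            rw [c4] at i1
            have i2 := Q1' y s l1 ⟨m1.1, by omega⟩ (by rw [hy1]; exact ⟨m2.1, by omega⟩)
            rw [hy1] at i2
            rw [hcc]
            calc q (FreeGroup.of (y, s)) * (q (FreeGroup.of (y1, s)) * q (FreeGroup.of (y, t)) *
                  c y2 s * ((c y2 s)⁻¹ * q (FreeGroup.of (y3, t))))
                = (q (FreeGroup.of (y, s)) * q (FreeGroup.of (y1, s))) *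
                  (q (FreeGroup.of (y, t)) * q (FreeGroup.of (y3, t))) := by group
              _ = 1 := by rw [i2, i1, mul_one]
          · by_cases k3 : y3.2 = b + 1
            · have e5 : M.eta y3.1 t < 0 := by omega
              have e6 : M.eta y3.1 s < 0 := by omega
              have hcc := hc y3 k3 ⟨s, b3⟩ s t hcm b3 e6 l4 e5
              rw [F3 y s k0 (by rw [hy1]; exact k1), F3 y1 t k1 (by rw [hy2]; exact k2),
                F2 y2 s k2 (by rw [hy3]; exact k3), hy3, F1 y3 t k3]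
              have hk : q (Kp M y3 s t) = q (FreeGroup.of (y2, t)) * q (FreeGroup.of (y1, s)) := by
                simp only [Kp, wd, c3, c2, mul_one, map_mul]
              rw [hk] at hcc
              have i1 := Q1' y1 t l2 ⟨m2.1, by omega⟩ (by rw [hy2]; exact ⟨m3.1, by omega⟩)
              rw [hy2] at i1
              have i2 := Q1' y s l1 ⟨m1.1, by omega⟩ (by rw [hy1]; exact ⟨m2.1, by omega⟩)
              rw [hy1] at i2
              rw [hcc]
              calc q (FreeGroup.of (y, s)) * (q (FreeGroup.of (y1, t)) *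
                    (q (FreeGroup.of (y2, t)) * q (FreeGroup.of (y1, s)) * c y3 t * (c y3 t)⁻¹))
                  = q (FreeGroup.of (y, s)) * (q (FreeGroup.of (y1, t)) *
                    q (FreeGroup.of (y2, t))) * q (FreeGroup.of (y1, s)) := by group
                _ = 1 := by rw [i1, mul_one, i2]
            · rw [F3 y s k0 (by rw [hy1]; exact k1), F3 y1 t k1 (by rw [hy2]; exact k2),
                F3 y2 s k2 (by rw [hy3]; exact k3), F3 y3 t k3 (by rw [hE']; exact k0)]
              have hr : wd (M.slab a b).act y [s, t, s, t] ∈ (M.slab a b).nrel := by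
                refine Or.inr ⟨y, s, t, hcm, ?_, ?_, rfl⟩
                · show (M.lab y.1 s ∧ (a ≤ y.2 ∧ y.2 ≤ b) ∧
                      (a ≤ (M.lact y s).2 ∧ (M.lact y s).2 ≤ b)) ∧
                    (M.lab (M.lact y s).1 t ∧ (a ≤ (M.lact y s).2 ∧ (M.lact y s).2 ≤ b) ∧
                      (a ≤ (M.lact (M.lact y s) t).2 ∧ (M.lact (M.lact y s) t).2 ≤ b)) ∧
                    (M.lab (M.lact (M.lact y s) t).1 s ∧
                      (a ≤ (M.lact (M.lact y s) t).2 ∧ (M.lact (M.lact y s) t).2 ≤ b) ∧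
                      (a ≤ (M.lact (M.lact (M.lact y s) t) s).2 ∧
                        (M.lact (M.lact (M.lact y s) t) s).2 ≤ b)) ∧
                    (M.lab (M.lact (M.lact (M.lact y s) t) s).1 t ∧
                      (a ≤ (M.lact (M.lact (M.lact y s) t) s).2 ∧
                        (M.lact (M.lact (M.lact y s) t) s).2 ≤ b) ∧
                      (a ≤ (M.lact (M.lact (M.lact (M.lact y s) t) s) t).2 ∧
                        (M.lact (M.lact (M.lact (M.lact y s) t) s) t).2 ≤ b)) ∧ True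
                  rw [hy1, hy2, hy3, hE']
                  exact ⟨⟨l1, ⟨m1.1, by omega⟩, ⟨m2.1, by omega⟩⟩,
                    ⟨l2, ⟨m2.1, by omega⟩, ⟨m3.1, by omega⟩⟩,
                    ⟨l3, ⟨m3.1, by omega⟩, ⟨m4.1, by omega⟩⟩,
                    ⟨l4, ⟨m4.1, by omega⟩, ⟨m1.1, by omega⟩⟩, trivial⟩
                · show M.lact (M.lact (M.lact (M.lact y s) t) s) t = y
                  rw [hy1, hy2, hy3, hE']
              have hr1 := hq _ hr
              have e : wd (M.slab a b).act y [s, t, s, t] = FreeGroup.of (y, s) *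
                  (FreeGroup.of (y1, t) * (FreeGroup.of (y2, s) * FreeGroup.of (y3, t))) := by
                show FreeGroup.of (y, s) * (FreeGroup.of (M.lact y s, t) *
                  (FreeGroup.of (M.lact (M.lact y s) t, s) *
                    (FreeGroup.of (M.lact (M.lact (M.lact y s) t) s, t) * 1))) = _
                rw [hy1, hy2, hy3, mul_one]
              rw [e] at hr1
              simpa only [map_mul] using hr1
  · intro y s hl
    have hl' : M.lab y.1 s ∧ (a ≤ y.2 ∧ y.2 ≤ b) ∧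
      (a ≤ (M.lact y s).2 ∧ (M.lact y s).2 ≤ b) := hl
    rw [FreeGroup.lift_apply_of]
    exact F3 y s (by omega) (by omega)

end Pool.Agent.H14.PD
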