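import Pool.Agent.H14.PD.Stmts

set_option autoImplicit false

namespace Pool.Agent.H14.PD

theorem pd_rtb : M_RTB := by
  intro hRET V S M a b hdn hab w hw hd
  obtain ⟨rho, h1, h2⟩ := hRET V S M a b hdn hab
  have k1 : rho w = 1 := by
    have : Subgroup.normalClosure (M.slab a (b + 1)).nrel ≤ rho.ker :=
      Subgroup.normalClosure_le_normal (fun r hr => (MonoidHom.mem_ker).2 (h1 r hr))
    exact (MonoidHom.mem_ker).1 (this hw)
  have k2 : rho w = QuotientGroup.mk' (Subgroup.normalClosure (M.slab a b).nrel) w := by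
    have : darts M a b ≤
        rho.eqLocus (QuotientGroup.mk' (Subgroup.normalClosure (M.slab a b).nrel)) := by
      refine (Subgroup.closure_le _).2 ?_
      rintro x ⟨y, s, hl, rfl⟩
      exact h2 y s hl
    exact this hd
  rw [k2] at k1
  exact (QuotientGroup.eq_one_iff w).1 k1

end Pool.Agent.H14.PD
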