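import Pool.Agent.H14.PD.Stmts

set_option autoImplicit false

namespace Pool.Agent.H14.PD

theorem pd_xgr_core (hXCM : XCM) (hXGA : XGA) (hXGB : XGB) {P Q : Type} (Z : Sz P Q)
    (x : Xv P Q) (u v : List (Xs P Q)) (j : Fin 3) (hu : Tr (xlab Z) (xact Z) x u)
    (hv : Tr (xlab Z) (xact Z) x v) (ru : Rd (xcm Z) u) (rv : Rd (xcm Z) v)
    (hc : ∀ a ∈ u, ∀ b ∈ v, xcm Z a b) (hj : ∀ t ∈ v, t.1 = j) (hl : 5 ≤ v.length) :
    u.length ≤ 6 := by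
  obtain ⟨⟨t1, m1, t2, m2, n12⟩, ⟨t3, m3, t4, m4, n34⟩⟩ := hXGA P Q Z x v j hv rv hj hl
  obtain ⟨-, -, -, c4⟩ := hXCM P Q Z
  have dir : ∀ s ∈ u, s.1 = j + 1 ∨ s.1 = j + 2 := by
    intro s hs
    have h1 : s.1 ≠ j := fun h => c4 s t1 (by rw [h, hj t1 m1]) (hc s hs t1 m1)
    have : ∀ a b : Fin 3, a ≠ b → a = b + 1 ∨ a = b + 2 := by decide
    exact this _ _ h1
  have adj1 : ∀ s ∈ u, s.1 = j + 1 → ∀ t ∈ v, Z.adj t.2.1 s.2.2.1 := by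
    intro s hs h1 t ht
    rcases hc s hs t ht with h | h
    · exfalso
      have h2 := h.1
      rw [hj t ht, h1] at h2
      have : ∀ b : Fin 3, b ≠ b + 1 + 1 := by decide
      exact this _ h2
    · exact h.2
  have adj2 : ∀ s ∈ u, s.1 = j + 2 → ∀ t ∈ v, Z.adj s.2.1 t.2.2.1 := by
    intro s hs h1 t ht
    rcases hc s hs t ht with h | h
    · exact h.2
    · exfalso
      have h2 := h.1
      rw [hj t ht, h1] at h2
      have : ∀ b : Fin 3, b + 2 ≠ b + 1 := by decide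
      exact this _ h2
  -- one `Q`-name in direction `j + 1`
  obtain ⟨q, hq⟩ : ∃ q : Q, ∀ s ∈ u, s.1 = j + 1 → s.2.2.1 = q := by
    by_cases h : ∃ s ∈ u, s.1 = j + 1
    · obtain ⟨s0, h0, h1⟩ := h
      refine ⟨s0.2.2.1, ?_⟩
      intro s hs h2
      rcases Z.c4 t1.2.1 t2.2.1 s.2.2.1 s0.2.2.1 (adj1 s hs h2 t1 m1) (adj1 s0 h0 h1 t1 m1)
        (adj1 s hs h2 t2 m2) (adj1 s0 h0 h1 t2 m2) with e | e
      · exact absurd e n12
      · exact e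
    · exact ⟨Z.qs, fun s hs h1 => absurd ⟨s, hs, h1⟩ h⟩
  obtain ⟨p, hp⟩ : ∃ p : P, ∀ s ∈ u, s.1 = j + 2 → s.2.1 = p := by
    by_cases h : ∃ s ∈ u, s.1 = j + 2
    · obtain ⟨s0, h0, h1⟩ := h
      refine ⟨s0.2.1, ?_⟩
      intro s hs h2
      rcases Z.c4 s.2.1 s0.2.1 t3.2.2.1 t4.2.2.1 (adj2 s hs h2 t3 m3) (adj2 s hs h2 t4 m4)
        (adj2 s0 h0 h1 t3 m3) (adj2 s0 h0 h1 t4 m4) with e | e
      · exact e
      · exact absurd e n34
    · exact ⟨Z.ps, fun s hs h1 => absurd ⟨s, hs, h1⟩ h⟩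
  refine hXGB P Q Z x u j p q hu ru ?_
  intro s hs
  rcases dir s hs with h | h
  · exact Or.inl ⟨h, hq s hs h⟩
  · exact Or.inr ⟨h, hp s hs h⟩

theorem pd_xgr : M_XGR := by
  intro hXCM hXGA hXGB P Q Z x u v hu hv ru rv hc
  obtain ⟨csymm, -, -, c4⟩ := hXCM P Q Z
  by_contra hcon
  push Not at hcon
  obtain ⟨l1, l2⟩ := hcon
  obtain ⟨s0, hs0⟩ : ∃ s, s ∈ u := by
    cases u with
    | nil => simp at l1
    | cons a u => exact ⟨a, List.mem_cons_self⟩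
  by_cases h : ∀ s ∈ u, s.1 = s0.1
  · have := pd_xgr_core hXCM hXGA hXGB Z x v u s0.1 hv hu rv ru
      (fun a ha b hb => csymm _ _ (hc b hb a ha)) h (by omega)
    omega
  · push Not at h
    obtain ⟨s1, hs1, hne⟩ := h
    obtain ⟨t0, ht0⟩ : ∃ s, s ∈ v := by
      cases v with
      | nil => simp at l2
      | cons a u => exact ⟨a, List.mem_cons_self⟩
    have key : ∀ a b c d : Fin 3, a ≠ b → c ≠ a → c ≠ b → d ≠ a → d ≠ b → c = d := by decide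
    have hne' : ∀ s ∈ u, ∀ t ∈ v, t.1 ≠ s.1 := fun s hs t ht e => c4 s t e.symm (hc s hs t ht)
    have := pd_xgr_core hXCM hXGA hXGB Z x u v t0.1 hu hv ru rv hc
      (fun t ht => key s1.1 s0.1 _ _ hne (hne' _ hs1 _ ht) (hne' _ hs0 _ ht) (hne' _ hs1 _ ht0)
        (hne' _ hs0 _ ht0)) (by omega)
    omega

end Pool.Agent.H14.PD
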